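import Pool.Agent.Helper75.Slab.Goals

/-!
MP_beb0a8_an : packet SLAB-LABEL (core cylinders are moved into slightly larger cylinders).
-/

set_option autoImplicit false

open Set

namespace Pool.Agent.Helper82.Slab

open Pool.Agent.Helper75.Slab

theorem thm (hcurve : G_CURVE) : G_LABEL := by
  intro φ J om₀ om₁ ζ C L hcont h0 h1 hz1 hz2 hLip hM hw0 hw1 hO j hj X hX
  by_contra hcon
  push Not at hcon
  obtain ⟨hXO, hXd⟩ := hX
  have hXO' : 0 < X 2 ∧ X 2 < 1 := hXO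
  have hCX := (hO X hXO).2.2.1
  have hC0 : 0 ≤ C := le_trans (norm_nonneg _) hCX
  set δ : ℝ := 1 / (1000 * (C + 1)) with hδ
  have hδ0 : 0 < δ := by positivity
  have hCδ : C * δ ≤ 1 / 1000 := by
    rw [hδ, mul_one_div, div_le_div_iff₀ (by positivity) (by norm_num)]
    nlinarith
  have hhyp : ∀ x ∈ M, (x 0 - 4 * (j.1 : ℝ)) ^ 2 + (x 1 - 4 * (j.2 : ℝ)) ^ 2 ≤ 1 →
      |om₀ x 0| ≤ 1 / 100 ∧ |om₀ x 1| ≤ 1 / 100 ∧ |om₀ x 2 - 1| ≤ 1 / 100 := by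
    intro x hx hd
    have := h0 x hx
    rw [hz1 x hx j hj hd] at this
    exact this
  obtain ⟨γ, γ', hγX, hγ⟩ := hcurve om₀ (4 * (j.1 : ℝ)) (4 * (j.2 : ℝ)) hcont hhyp X hXO hXd δ hδ0
  have hγM : ∀ z ∈ Icc (0 : ℝ) 1, γ z ∈ M := by
    intro z hz
    have := (hγ z hz).1
    show 0 ≤ γ z 2 ∧ γ z 2 ≤ 1
    rw [this]
    exact hz
  have hφc : ContinuousOn φ M := by
    have : LipschitzOnWith ⟨|L|, abs_nonneg L⟩ φ M := by
      apply LipschitzOnWith.of_dist_le_mul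
      intro x hx y hy
      rw [dist_eq_norm, dist_eq_norm]
      refine le_trans (hLip x hx y hy) ?_
      exact mul_le_mul_of_nonneg_right (le_abs_self L) (norm_nonneg _)
    exact this.continuousOn
  have hγc : ContinuousOn γ (Icc 0 1) := fun z hz => (hγ z hz).2.2.1.continuousWithinAt
  have hGc : ContinuousOn (fun z => φ (γ z)) (Icc 0 1) := hφc.comp hγc (fun z hz => hγM z hz)
  have hGk : ∀ k, ContinuousOn (fun z => φ (γ z) k) (Icc 0 1) := by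
    intro k
    exact (continuous_apply k).comp_continuousOn hGc
  have hder : ∀ z ∈ Ioo (0 : ℝ) 1, ∀ k, HasDerivAt (fun z => φ (γ z) k) (J (γ z) (γ' z) k) z := by
    intro z hz k
    have hz' : z ∈ Icc (0 : ℝ) 1 := Ioo_subset_Icc_self hz
    have hO1 : γ z ∈ O := by
      have := (hγ z hz').1
      show 0 < γ z 2 ∧ γ z 2 < 1
      rw [this]
      exact hz
    have hd1 : HasDerivAt γ (γ' z) z := (hγ z hz').2.2.1.hasDerivAt (Icc_mem_nhds hz.1 hz.2)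
    have hd2 : HasFDerivAt φ (J (γ z)) (γ z) := (hO _ hO1).2.1
    have hd3 : HasDerivAt (fun z => φ (γ z)) (J (γ z) (γ' z)) z := hd2.comp_hasDerivAt z hd1
    exact (hasDerivAt_pi.1 hd3) k
  -- basic estimate
  have hest : ∀ z ∈ Ioo (0 : ℝ) 1, ∀ k, |J (γ z) (γ' z) k - (om₀ (γ z) 2)⁻¹ * om₁ (φ (γ z)) k| ≤
      1 / 1000 := by
    intro z hz k
    have hz' : z ∈ Icc (0 : ℝ) 1 := Ioo_subset_Icc_self hz
    have hO1 : γ z ∈ O := by
      have := (hγ z hz').1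
      show 0 < γ z 2 ∧ γ z 2 < 1
      rw [this]
      exact hz
    obtain ⟨-, -, hJC, hJom⟩ := hO _ hO1
    have e1 : J (γ z) (γ' z) - (om₀ (γ z) 2)⁻¹ • om₁ (φ (γ z)) =
        J (γ z) (γ' z - (om₀ (γ z) 2)⁻¹ • om₀ (γ z)) := by
      rw [map_sub, map_smul, hJom]
    have e2 : ‖J (γ z) (γ' z) - (om₀ (γ z) 2)⁻¹ • om₁ (φ (γ z))‖ ≤ 1 / 1000 := by
      rw [e1]
      calc ‖J (γ z) (γ' z - (om₀ (γ z) 2)⁻¹ • om₀ (γ z))‖
          ≤ ‖J (γ z)‖ * ‖γ' z - (om₀ (γ z) 2)⁻¹ • om₀ (γ z)‖ := ContinuousLinearMap.le_opNorm _ _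
        _ ≤ C * δ := mul_le_mul hJC (hγ z hz').2.2.2 (norm_nonneg _) hC0
        _ ≤ 1 / 1000 := hCδ
    have e3 := norm_le_pi_norm (J (γ z) (γ' z) - (om₀ (γ z) 2)⁻¹ • om₁ (φ (γ z))) k
    rw [Real.norm_eq_abs] at e3
    simp only [Pi.sub_apply, Pi.smul_apply, smul_eq_mul] at e3
    linarith
  have hinv : ∀ z ∈ Icc (0 : ℝ) 1, 0 < (om₀ (γ z) 2)⁻¹ ∧ (om₀ (γ z) 2)⁻¹ ≤ 100 / 99 := by
    intro z hz
    have h3 := (hhyp (γ z) (hγM z hz) (hγ z hz).2.1).2.2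
    have h4 := abs_le.1 h3
    have h5 : 99 / 100 ≤ om₀ (γ z) 2 := by linarith [h4.1]
    constructor
    · apply inv_pos.2
      linarith
    · rw [inv_le_comm₀ (by linarith) (by norm_num)]
      norm_num
      linarith
  have hGM : ∀ z ∈ Icc (0 : ℝ) 1, φ (γ z) ∈ M := fun z hz => hM _ (hγM z hz)
  have hk01 : ∀ k : Fin 3, (∀ x ∈ M, |om₁ x k| ≤ 1 / 100) →
      ∀ z ∈ Ioo (0 : ℝ) 1, |J (γ z) (γ' z) k| ≤ 112 / 10000 := by
    intro k hk z hz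
    have hz' : z ∈ Icc (0 : ℝ) 1 := Ioo_subset_Icc_self hz
    have h3 := hest z hz k
    have h4 := hinv z hz'
    have h5 := hk _ (hGM z hz')
    have h6 : |(om₀ (γ z) 2)⁻¹ * om₁ (φ (γ z)) k| ≤ 100 / 99 * (1 / 100) := by
      rw [abs_mul, abs_of_pos h4.1]
      exact mul_le_mul h4.2 h5 (abs_nonneg _) (by norm_num)
    have h7 : |J (γ z) (γ' z) k| ≤ |J (γ z) (γ' z) k - (om₀ (γ z) 2)⁻¹ * om₁ (φ (γ z)) k| +
        |(om₀ (γ z) 2)⁻¹ * om₁ (φ (γ z)) k| := by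
      have := abs_add_le (J (γ z) (γ' z) k - (om₀ (γ z) 2)⁻¹ * om₁ (φ (γ z)) k)
        ((om₀ (γ z) 2)⁻¹ * om₁ (φ (γ z)) k)
      simpa using this
    have h8 : (1 : ℝ) / 1000 + 100 / 99 * (1 / 100) ≤ 112 / 10000 := by norm_num
    linarith
  have hmv : ∀ k : Fin 3, (∀ x ∈ M, |om₁ x k| ≤ 1 / 100) →
      ∀ z ∈ Icc (0 : ℝ) 1, |φ (γ z) k - φ X k| ≤ 112 / 10000 := by
    intro k hk
    have main : ∀ p ∈ Icc (0 : ℝ) 1, ∀ q ∈ Icc (0 : ℝ) 1, p < q →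
        |φ (γ q) k - φ (γ p) k| ≤ 112 / 10000 := by
      intro p hp q hq hpq
      obtain ⟨c, hc, hc2⟩ := exists_hasDerivAt_eq_slope (fun z => φ (γ z) k)
        (fun z => J (γ z) (γ' z) k) hpq
        ((hGk k).mono (Icc_subset_Icc hp.1 hq.2))
        (fun z hz => hder z ⟨lt_of_le_of_lt hp.1 hz.1, lt_of_lt_of_le hz.2 hq.2⟩ k)
      have hc' : c ∈ Ioo (0 : ℝ) 1 := ⟨lt_of_le_of_lt hp.1 hc.1, lt_of_lt_of_le hc.2 hq.2⟩
      have h3 := hk01 k hk c hc'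
      have hqp : 0 < q - p := sub_pos.2 hpq
      have h4 : φ (γ q) k - φ (γ p) k = J (γ c) (γ' c) k * (q - p) := by
        have := hc2
        rw [this]
        field_simp
      rw [h4, abs_mul, abs_of_pos hqp]
      have h5 : q - p ≤ 1 := by linarith [hp.1, hq.2]
      calc |J (γ c) (γ' c) k| * (q - p) ≤ 112 / 10000 * 1 :=
            mul_le_mul h3 h5 hqp.le (by norm_num)
        _ = 112 / 10000 := mul_one _
    intro z hz
    have hX2 : X 2 ∈ Icc (0 : ℝ) 1 := ⟨hXO'.1.le, hXO'.2.le⟩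
    rcases lt_trichotomy z (X 2) with h | h | h
    · have := main z hz (X 2) hX2 h
      rw [hγX] at this
      rwa [abs_sub_comm]
    · rw [h, hγX]
      norm_num
    · have := main (X 2) hX2 z hz h
      rwa [hγX] at this
  have hm0 := hmv 0 (fun x hx => (h1 x hx).1)
  have hm1 := hmv 1 (fun x hx => (h1 x hx).2.1)
  have hzeta : ∀ z ∈ Icc (0 : ℝ) 1, ζ (φ (γ z)) ≤ 1 / 2 := by
    intro z hz
    apply hz2 _ (hGM z hz)
    intro i hi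
    have h3 := hcon i hi
    have h4 := abs_le.1 (hm0 z hz)
    have h5 := abs_le.1 (hm1 z hz)
    simp only [dist2] at h3 ⊢
    set d0 := φ (γ z) 0 - φ X 0 with hd0
    set d1 := φ (γ z) 1 - φ X 1 with hd1
    set P0 := φ X 0 - 4 * (i.1 : ℝ) with hP0
    set P1 := φ X 1 - 4 * (i.2 : ℝ) with hP1
    have e0 : φ (γ z) 0 - 4 * (i.1 : ℝ) = P0 + d0 := by
      rw [hP0, hd0]; ring
    have e1 : φ (γ z) 1 - 4 * (i.2 : ℝ) = P1 + d1 := by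
      rw [hP1, hd1]; ring
    rw [e0, e1]
    have s0 : d0 ^ 2 ≤ (112 / 10000) ^ 2 := by nlinarith [h4.1, h4.2]
    have s1 : d1 ^ 2 ≤ (112 / 10000) ^ 2 := by nlinarith [h5.1, h5.2]
    nlinarith [sq_nonneg (P0 + 50 * d0), sq_nonneg (P1 + 50 * d1)]
  -- final contradiction
  obtain ⟨c, hc, hc2⟩ := exists_hasDerivAt_eq_slope (fun z => φ (γ z) 2)
    (fun z => J (γ z) (γ' z) 2) (zero_lt_one) (hGk 2) (fun z hz => hder z hz 2)
  have z0 : (0 : ℝ) ∈ Icc (0 : ℝ) 1 := ⟨le_refl _, zero_le_one⟩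
  have z1 : (1 : ℝ) ∈ Icc (0 : ℝ) 1 := ⟨zero_le_one, le_refl _⟩
  have g0 : φ (γ 0) 2 = 0 := hw0 _ (hγM 0 z0) (hγ 0 z0).1
  have g1 : φ (γ 1) 2 = 1 := hw1 _ (hγM 1 z1) (hγ 1 z1).1
  simp only [g0, g1] at hc2
  have hc' : c ∈ Icc (0 : ℝ) 1 := Ioo_subset_Icc_self hc
  have h3 := (abs_le.1 (hest c hc 2)).2
  have h4 := hinv c hc'
  have h5 := (abs_le.1 (h1 _ (hGM c hc')).2.2).2
  have h6 := hzeta c hc'
  have h7 : om₁ (φ (γ c)) 2 ≤ 51 / 100 := by linarith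
  have h8 : (om₀ (γ c) 2)⁻¹ * om₁ (φ (γ c)) 2 ≤ 100 / 99 * (51 / 100) := by
    calc (om₀ (γ c) 2)⁻¹ * om₁ (φ (γ c)) 2 ≤ (om₀ (γ c) 2)⁻¹ * (51 / 100) :=
          mul_le_mul_of_nonneg_left h7 h4.1.le
      _ ≤ 100 / 99 * (51 / 100) := mul_le_mul_of_nonneg_right h4.2 (by norm_num)
  rw [hc2] at h3
  norm_num at h3 h8
  linarith

end Pool.Agent.Helper82.Slab
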